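import Pool.Agent.Lib.Pe08634.Explicit
import Pool.Agent.Lib.PntAP.PntAP

/-!
# Asymptotics of `a(n)`
-/

set_option autoImplicit false

namespace Pool.Agent.Pe08634

open Finset Filter Topology

/-- every `m ≥ 1` divides `P_k + P_{k+1}` for some `k ≥ 1` -/
theorem exists_dvd (m : ℕ) (hm : 1 ≤ m) : ∃ k, 1 ≤ k ∧ m ∣ P k + P (k + 1) := by
  have : NeZero m := ⟨by omega⟩
  obtain ⟨p, hp1, hp, hpm⟩ := Nat.forall_exists_prime_gt_and_eq_mod (q := m) (a := -1)
    (isUnit_one.neg) 2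
  obtain ⟨l, hl, rfl⟩ := exists_pr hp
  have hl2 : 2 ≤ l := by
    by_contra hc
    have : l = 1 := by omega
    rw [this, pr_one] at hp1
    omega
  obtain ⟨k, rfl⟩ : ∃ k, l = k + 1 := ⟨l - 1, by omega⟩
  refine ⟨k, by omega, ?_⟩
  rw [P_succ, show P k + P k * pr (k + 1) = P k * (pr (k + 1) + 1) by ring]
  refine Dvd.dvd.mul_left ?_ _
  rw [← ZMod.natCast_eq_zero_iff]
  push_cast
  rw [hpm]
  ring

theorem tendsto_a : Tendsto a atTop atTop := by
  refine tendsto_atTop.mpr fun M => ?_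
  -- for each `m < M` there is a level from which on `m` divides
  have h : ∀ m : ℕ, ∃ n0, ∀ n ≥ n0, 1 ≤ m → ¬ Free n m := by
    intro m
    rcases Nat.eq_zero_or_pos m with rfl | hm
    · exact ⟨0, fun n _ h => absurd h (by omega)⟩
    obtain ⟨k, hk, hd⟩ := exists_dvd m hm
    exact ⟨k + 1, fun n hn _ hF => hF k (k + 1) hk (by omega) hn hd⟩
  choose f hf using h
  filter_upwards [eventually_ge_atTop (∑ m ∈ range M, f m)] with n hn
  by_contra hc
  rw [not_le] at hc
  have h1 : f (a n) ≤ ∑ m ∈ range M, f m :=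
    Finset.single_le_sum (f := f) (fun _ _ => Nat.zero_le _) (Finset.mem_range.mpr hc)
  exact hf (a n) n (h1.trans hn) (a_spec n).1.le (a_spec n).2

/-- `θ(x) / x → 1` in the form we need: primes `≡ -1 (mod v)` in `((1 - δ) x, x]` -/
theorem exists_prime_AP (v : ℕ) (hv : 1 ≤ v) {δ : ℝ} (h0 : 0 < δ) (h1 : δ < 1) :
    ∀ᶠ x : ℝ in atTop, ∃ p : ℕ, p.Prime ∧ v ∣ p + 1 ∧ (1 - δ) * x < p ∧ (p : ℝ) ≤ x := by
  have : NeZero v := ⟨by omega⟩
  have hu : IsUnit (-1 : ZMod v) := isUnit_one.neg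
  have hT := PntAP.thetaAP_tendsto hu
  have hφ : 0 < ((v.totient : ℝ)⁻¹) := by
    have := Nat.totient_pos.mpr (show 0 < v by omega)
    positivity
  set c := ((v.totient : ℝ)⁻¹) with hc
  have hT2 : Tendsto (fun x : ℝ => PntAP.thetaAP (-1 : ZMod v) ((1 - δ) * x) / ((1 - δ) * x))
      atTop (𝓝 c) := hT.comp (tendsto_id.const_mul_atTop (by linarith : 0 < 1 - δ))
  have e1 := hT.eventually (lt_mem_nhds (show c * (1 - δ / 4) < c by nlinarith))
  have e2 := hT2.eventually (gt_mem_nhds (show c < c * (1 + δ / 4) by nlinarith))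
  filter_upwards [e1, e2, eventually_gt_atTop 0] with x g1 g2 hx
  have hx1 : 0 < (1 - δ) * x := by have : 0 < 1 - δ := by linarith
                                   positivity
  rw [lt_div_iff₀ hx] at g1
  rw [div_lt_iff₀ hx1] at g2
  have hlt : PntAP.thetaAP (-1 : ZMod v) ((1 - δ) * x) < PntAP.thetaAP (-1 : ZMod v) x := by
    refine g2.trans (lt_of_lt_of_le ?_ g1.le)
    have : (1 + δ / 4) * (1 - δ) < (1 - δ / 4) := by nlinarith
    have h3 := mul_lt_mul_of_pos_left this (mul_pos hφ hx)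
    linarith
  by_contra hne
  push Not at hne
  refine absurd hlt (not_lt.mpr ?_)
  unfold PntAP.thetaAP
  refine Finset.sum_le_sum_of_subset_of_nonneg ?_ fun p hp _ => ?_
  · intro p hp
    rw [PntAP.mem_primesAP] at hp ⊢
    refine ⟨⟨hp.1.1, Nat.le_floor ?_⟩, hp.2⟩
    by_contra hc2
    rw [not_le] at hc2
    have hd : v ∣ p + 1 := by
      rw [← ZMod.natCast_eq_zero_iff]
      push_cast
      rw [hp.2.2]
      ring
    have := hne p hp.2.1 hd hc2
    have h4 := (Nat.le_floor_iff hx.le).mp hp.1.2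
    linarith
  · exact Real.log_nonneg (by exact_mod_cast (PntAP.mem_primesAP.mp hp).1.1)

theorem tendsto_pr : Tendsto (fun n => (pr n : ℝ)) atTop atTop := by
  refine tendsto_natCast_atTop_atTop.comp ?_
  have h : Tendsto (fun n => Nat.nth Nat.Prime n) atTop atTop :=
    (Nat.nth_strictMono Nat.infinite_setOfPred_prime).tendsto_atTop
  exact h.comp (tendsto_sub_atTop_nat 1)

/-- for large `n` either `a(n) / rad a(n)` is large or `a(n)` has a prime factor near `p_n` or
larger -/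
theorem large_shape (V : ℕ) {δ : ℝ} (h0 : 0 < δ) :
    ∀ᶠ n in atTop, V < a n / rad (a n) ∨ ∃ q, q.Prime ∧ q ∣ a n ∧ (1 - δ) * pr n < q := by
  wlog h1 : δ < 1 generalizing δ
  · refine Eventually.of_forall fun n => Or.inr ?_
    obtain ⟨q, hq, hqa⟩ := Nat.exists_prime_and_dvd (a_spec n).1.ne'
    refine ⟨q, hq, hqa, ?_⟩
    have : (1 - δ) * (pr n : ℝ) ≤ 0 :=
      mul_nonpos_of_nonpos_of_nonneg (by linarith) (Nat.cast_nonneg _)
    have : (0 : ℝ) < q := by exact_mod_cast hq.pos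
    linarith
  have h2 : ∀ v ∈ Finset.Icc 1 V, ∀ᶠ n in atTop,
      ∃ p : ℕ, p.Prime ∧ v ∣ p + 1 ∧ (1 - δ) * (pr n : ℝ) < p ∧ (p : ℝ) ≤ pr n :=
    fun v hv => tendsto_pr.eventually
      (exists_prime_AP v (Finset.mem_Icc.mp hv).1 h0 h1)
  have h3 := (Filter.eventually_all_finset (Finset.Icc 1 V)).mpr h2
  have h4 : ∀ᶠ n in atTop, 2 / (1 - δ) < (pr n : ℝ) := tendsto_pr.eventually_gt_atTop _
  filter_upwards [h3, h4, eventually_ge_atTop 1] with n hn hn2 hn1
  by_contra hc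
  push Not at hc
  obtain ⟨hc1, hc2⟩ := hc
  have ha := (a_spec n).1
  have hv : 1 ≤ a n / rad (a n) :=
    Nat.div_pos (Nat.le_of_dvd (by omega) (rad_dvd _)) (rad_pos _)
  obtain ⟨p, hp, hvp, hp1, hp2⟩ := hn _ (Finset.mem_Icc.mpr ⟨hv, hc1⟩)
  obtain ⟨l, hl, rfl⟩ := exists_pr hp
  have hln : l ≤ n := by
    by_contra hcl
    rw [not_le] at hcl
    have := pr_lt hn1 hcl
    have h5 : pr l ≤ pr n := by exact_mod_cast hp2
    omega
  have hl2 : 2 ≤ l := by
    by_contra hcl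
    have hl1 : l = 1 := by omega
    rw [hl1, pr_one] at hp1
    rw [div_lt_iff₀ (by linarith)] at hn2
    push_cast at hp1
    linarith
  obtain ⟨k, rfl⟩ : ∃ k, l = k + 1 := ⟨l - 1, by omega⟩
  refine shape (n := n) (i := k) (j := k + 1) (by omega) (by omega) hln (fun q hq hqa => ?_) ?_
  · obtain ⟨s, hs, rfl⟩ := exists_pr hq
    have h5 := hc2 _ hq hqa
    have h6 : pr s < pr (k + 1) := by
      have : (pr s : ℝ) < pr (k + 1) := lt_of_le_of_lt h5 hp1
      exact_mod_cast this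
    have h7 : s < k + 1 := by
      by_contra hcs
      rw [not_lt] at hcs
      have := pr_le hcs
      omega
    exact pr_le (by omega)
  · have : R k (k + 1) = pr (k + 1) := by
      unfold R
      have : Ioc k (k + 1) = {k + 1} := by ext t; simp
      rw [this, Finset.prod_singleton]
    rw [this, add_comm]
    exact hvp

end Pool.Agent.Pe08634
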