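import Pool.Agent.Lib.Pe08634.Defs

/-!
# The upper bound for `a(n)` in terms of `log p_n`
-/

set_option autoImplicit false

namespace Pool.Agent.Pe08634

open Finset

/-- a number that all positive numbers below `a(n)` divide -/
noncomputable def D (n : ℕ) : ℕ := P (n - 1) * ∏ j ∈ Icc 1 n, ∏ i ∈ Ico 1 j, (1 + R i j)

theorem D_pos (n : ℕ) : 0 < D n :=
  Nat.mul_pos (P_pos _) (Finset.prod_pos fun _ _ => Finset.prod_pos fun _ _ => by omega)

theorem dvd_D {n m : ℕ} (h1 : 1 ≤ m) (hm : m < a n) : m ∣ D n := by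
  rcases Nat.eq_or_lt_of_le h1 with h | h
  · rw [← h]; exact one_dvd _
  obtain ⟨i, j, hi, hij, hj, hd⟩ := a_min h hm
  rw [add_eq hij.le] at hd
  refine hd.trans (mul_dvd_mul (P_dvd (by omega)) ?_)
  refine (Finset.dvd_prod_of_mem (fun i => 1 + R i j) (Finset.mem_Ico.mpr ⟨hi, hij⟩)).trans ?_
  exact Finset.dvd_prod_of_mem (fun j => ∏ i ∈ Ico 1 j, (1 + R i j))
    (Finset.mem_Icc.mpr ⟨by omega, hj⟩)

theorem lcmUpto_dvd (n : ℕ) : Nat.lcmUpto (a n - 1) ∣ D n := by
  unfold Nat.lcmUpto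
  refine Finset.lcm_dvd fun m hm => ?_
  rw [Finset.mem_Icc] at hm
  exact dvd_D (m := m) hm.1 (by have := (a_spec n).1; omega)

theorem psi_le_log_D (n : ℕ) : Chebyshev.psi ((a n - 1 : ℕ) : ℝ) ≤ Real.log (D n) := by
  rw [Chebyshev.psi_eq_log_lcmUpto]
  refine Real.log_le_log (by exact_mod_cast Nat.lcmUpto_pos _) ?_
  exact_mod_cast Nat.le_of_dvd (D_pos n) (lcmUpto_dvd n)

theorem log_pr_le {t n : ℕ} (h : t ≤ n) : Real.log (pr t) ≤ Real.log (pr n) :=
  Real.log_le_log (by exact_mod_cast (pr_prime t).pos) (by exact_mod_cast pr_le h)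

theorem log_R_le {i j n : ℕ} (hj : j ≤ n) :
    Real.log (R i j) ≤ ((j - i : ℕ) : ℝ) * Real.log (pr n) := by
  unfold R
  rw [Nat.cast_prod, Real.log_prod fun t _ => by exact_mod_cast (pr_prime t).ne_zero]
  calc ∑ t ∈ Ioc i j, Real.log (pr t) ≤ ∑ _t ∈ Ioc i j, Real.log (pr n) := by
        refine Finset.sum_le_sum fun t ht => log_pr_le ?_
        rw [Finset.mem_Ioc] at ht
        omega
    _ = ((j - i : ℕ) : ℝ) * Real.log (pr n) := by
        rw [Finset.sum_const, Nat.card_Ioc, nsmul_eq_mul]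

theorem log_P_le {k n : ℕ} (hk : k ≤ n) : Real.log (P k) ≤ k * Real.log (pr n) := by
  have h : P k = R 0 k := by
    have := P_eq (Nat.zero_le k)
    rwa [P_zero, one_mul] at this
  rw [h]
  exact log_R_le hk

theorem log_one_add_R_le {i j n : ℕ} (hj : j ≤ n) :
    Real.log ((1 + R i j : ℕ) : ℝ) ≤ Real.log 2 + ((j - i : ℕ) : ℝ) * Real.log (pr n) := by
  have h1 := R_pos i j
  calc Real.log ((1 + R i j : ℕ) : ℝ) ≤ Real.log ((2 * R i j : ℕ) : ℝ) := by
        refine Real.log_le_log (by positivity) ?_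
        exact_mod_cast (by omega : 1 + R i j ≤ 2 * R i j)
    _ = Real.log 2 + Real.log (R i j) := by
        rw [Nat.cast_mul, Real.log_mul (by norm_num) (by exact_mod_cast h1.ne')]
        norm_num
    _ ≤ _ := by gcongr; exact log_R_le hj

theorem sum_range_real (j : ℕ) : ∑ i ∈ range j, (i : ℝ) = j * (j - 1) / 2 := by
  induction j with
  | zero => simp
  | succ k ih =>
    rw [Finset.sum_range_succ, ih]
    push_cast
    ring

theorem sum_inner (j : ℕ) (hj : 1 ≤ j) (L c : ℝ) :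
    ∑ i ∈ Ico 1 j, (c + ((j - i : ℕ) : ℝ) * L) = (j - 1) * c + (j * (j - 1) / 2) * L := by
  have h : ∑ i ∈ Ico 1 j, ((j - i : ℕ) : ℝ) = j * (j - 1) / 2 := by
    have h1 : ∑ i ∈ Ico 1 j, ((j - i : ℕ) : ℝ) = ∑ i ∈ range j, (i : ℝ) := by
      rw [Finset.sum_Ico_eq_sum_range]
      rw [← Finset.sum_range_reflect (fun i => (i : ℝ)) j]
      obtain ⟨k, rfl⟩ : ∃ k, j = k + 1 := ⟨j - 1, by omega⟩
      rw [Finset.sum_range_succ]
      have : ((k + 1 - 1 - k : ℕ) : ℝ) = 0 := by simp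
      rw [this, add_zero]
      refine Finset.sum_congr (by simp) fun i hi => ?_
      rw [Finset.mem_range] at hi
      congr 1
      omega
    rw [h1, sum_range_real]
  rw [Finset.sum_add_distrib, ← Finset.sum_mul, h, Finset.sum_const, Nat.card_Ico, nsmul_eq_mul]
  push_cast [hj]
  ring

theorem log_D_le (n : ℕ) (hn : 1 ≤ n) :
    Real.log (D n) ≤ (((n : ℝ) ^ 3 - n) / 6 + (n - 1)) * Real.log (pr n)
      + ((n : ℝ) ^ 2 - n) / 2 * Real.log 2 := by
  unfold D
  rw [Nat.cast_mul, Real.log_mul (by exact_mod_cast (P_pos _).ne')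
    (by exact_mod_cast (Finset.prod_pos fun _ _ => Finset.prod_pos fun _ _ => by omega).ne'),
    Nat.cast_prod, Real.log_prod (fun j _ => by
      exact_mod_cast (Finset.prod_pos fun _ _ => by omega).ne')]
  have h1 : Real.log (P (n - 1)) ≤ ((n : ℝ) - 1) * Real.log (pr n) := by
    have := log_P_le (k := n - 1) (n := n) (by omega)
    rwa [Nat.cast_sub hn, Nat.cast_one] at this
  have h2 : ∑ j ∈ Icc 1 n, Real.log ((∏ i ∈ Ico 1 j, (1 + R i j) : ℕ) : ℝ)
      ≤ ∑ j ∈ Icc 1 n, ((j - 1) * Real.log 2 + (j * (j - 1) / 2) * Real.log (pr n)) := by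
    refine Finset.sum_le_sum fun j hj => ?_
    rw [Finset.mem_Icc] at hj
    rw [Nat.cast_prod, Real.log_prod (fun i _ => by positivity), ← sum_inner j hj.1]
    exact Finset.sum_le_sum fun i _ => log_one_add_R_le hj.2
  have h3 : ∀ (n : ℕ) (c L : ℝ), ∑ j ∈ Icc 1 n, (((j : ℝ) - 1) * c + (j * (j - 1) / 2) * L)
      = ((n : ℝ) ^ 3 - n) / 6 * L + ((n : ℝ) ^ 2 - n) / 2 * c := by
    intro n c L
    induction n with
    | zero => simp
    | succ k ih =>
      rw [Finset.sum_Icc_succ_top (by omega), ih]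
      push_cast
      ring
  rw [h3] at h2
  linarith

end Pool.Agent.Pe08634
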