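import Mathlib

/-!
# Sums of two primorials: definitions and elementary facts
-/

set_option autoImplicit false

namespace Pool.Agent.Pe08634

open Finset

/-- the `k`-th prime `p_k`, `k ≥ 1` -/
noncomputable def pr (k : ℕ) : ℕ := Nat.nth Nat.Prime (k - 1)

/-- the `k`-th primorial `P_k = p_1 ⋯ p_k` -/
noncomputable def P (k : ℕ) : ℕ := ∏ t ∈ Icc 1 k, pr t

/-- `m` divides no sum `P_i + P_j` with `1 ≤ i < j ≤ n` -/
def Free (n m : ℕ) : Prop := ∀ i j, 1 ≤ i → i < j → j ≤ n → ¬ m ∣ P i + P j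

/-- the number `a(n)` of the problem -/
noncomputable def a (n : ℕ) : ℕ := sInf {m : ℕ | 1 < m ∧ Free n m}

/-- the radical of `m` -/
def rad (m : ℕ) : ℕ := ∏ q ∈ m.primeFactors, q

/-- the product `p_{i+1} ⋯ p_j` -/
noncomputable def R (i j : ℕ) : ℕ := ∏ t ∈ Ioc i j, pr t

theorem pr_prime (k : ℕ) : (pr k).Prime := Nat.prime_nth_prime _

theorem pr_lt {k l : ℕ} (hk : 1 ≤ k) (h : k < l) : pr k < pr l :=
  Nat.nth_strictMono Nat.infinite_setOfPred_prime (by omega)

theorem pr_le {k l : ℕ} (h : k ≤ l) : pr k ≤ pr l :=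
  Nat.nth_monotone Nat.infinite_setOfPred_prime (by omega)

theorem pr_one : pr 1 = 2 := by
  unfold pr; simp [Nat.nth_prime_zero_eq_two]

theorem pr_two : pr 2 = 3 := by
  unfold pr; simp [Nat.nth_prime_one_eq_three]

theorem exists_pr {q : ℕ} (hq : q.Prime) : ∃ k, 1 ≤ k ∧ pr k = q := by
  refine ⟨Nat.count Nat.Prime q + 1, by omega, ?_⟩
  unfold pr
  simp only [Nat.add_sub_cancel]
  exact Nat.nth_count hq

theorem P_zero : P 0 = 1 := by simp [P]

theorem P_succ (k : ℕ) : P (k + 1) = P k * pr (k + 1) := by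
  unfold P
  rw [Finset.prod_Icc_succ_top (by omega)]

theorem P_pos (k : ℕ) : 0 < P k := Finset.prod_pos fun t _ => (pr_prime t).pos

theorem R_pos (i j : ℕ) : 0 < R i j := Finset.prod_pos fun t _ => (pr_prime t).pos

theorem P_eq {i j : ℕ} (h : i ≤ j) : P j = P i * R i j := by
  induction j, h using Nat.le_induction with
  | base => simp [R]
  | succ j hj ih =>
    rw [P_succ, ih, mul_assoc]
    congr 1
    unfold R
    rw [← Finset.insert_Ioc_right_eq_Ioc_add_one hj, Finset.prod_insert (by simp), mul_comm]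

theorem P_dvd {i j : ℕ} (h : i ≤ j) : P i ∣ P j := ⟨R i j, P_eq h⟩

theorem P_le {i j : ℕ} (h : i ≤ j) : P i ≤ P j := Nat.le_of_dvd (P_pos j) (P_dvd h)

theorem add_eq {i j : ℕ} (h : i ≤ j) : P i + P j = P i * (1 + R i j) := by
  rw [P_eq h]; ring

theorem exists_free (n : ℕ) : ∃ m, 1 < m ∧ Free n m := by
  refine ⟨2 * P n + 1, by have := P_pos n; omega, fun i j _ hij hj h => ?_⟩
  have h1 := P_le hj
  have h2 := P_le (hij.le.trans hj)
  have h3 := P_pos i
  have := Nat.le_of_dvd (by omega) h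
  omega

theorem a_spec (n : ℕ) : 1 < a n ∧ Free n (a n) :=
  Nat.sInf_mem (s := {m : ℕ | 1 < m ∧ Free n m}) (exists_free n)

theorem a_min {n m : ℕ} (h1 : 1 < m) (hm : m < a n) :
    ∃ i j, 1 ≤ i ∧ i < j ∧ j ≤ n ∧ m ∣ P i + P j := by
  have h := Nat.notMem_of_lt_sInf hm
  simp only [Set.mem_ofPred_eq, not_and, Free, not_forall, not_not] at h
  obtain ⟨i, j, hi, hij, hj, hd⟩ := h h1
  exact ⟨i, j, hi, hij, hj, hd⟩

theorem a_le {n m : ℕ} (h1 : 1 < m) (h : Free n m) : a n ≤ m := Nat.sInf_le ⟨h1, h⟩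

theorem a_mono : Monotone a := by
  intro n n' h
  have h' := a_spec n'
  exact a_le h'.1 fun i j hi hij hj => h'.2 i j hi hij (hj.trans h)

/-- a prime divides `P_i` if it is at most `p_i` -/
theorem dvd_P {q i : ℕ} (hq : q.Prime) (hi : 1 ≤ i) (h : q ≤ pr i) : q ∣ P i := by
  obtain ⟨k, hk, rfl⟩ := exists_pr hq
  have hki : k ≤ i := by
    by_contra hc
    exact absurd (pr_lt hi (not_le.mp hc)) (not_lt.mpr h)
  exact Finset.dvd_prod_of_mem _ (Finset.mem_Icc.mpr ⟨hk, hki⟩)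

theorem rad_dvd (m : ℕ) : rad m ∣ m := Nat.prod_primeFactors_dvd m

theorem rad_pos (m : ℕ) : 0 < rad m :=
  Finset.prod_pos fun _ hq => (Nat.prime_of_mem_primeFactors hq).pos

theorem rad_dvd_P {m i : ℕ} (hi : 1 ≤ i) (h : ∀ q, q.Prime → q ∣ m → q ≤ pr i) :
    rad m ∣ P i := by
  unfold rad
  refine Finset.prod_primes_dvd _ (fun q hq => (Nat.prime_of_mem_primeFactors hq).prime)
    fun q hq => ?_
  have hq' := Nat.prime_of_mem_primeFactors hq
  exact dvd_P hq' hi (h q hq' (Nat.dvd_of_mem_primeFactors hq))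

/-- if all prime factors of `a(n)` are at most `p_i`, `i < j ≤ n`, then `a(n) / rad a(n)` does not
divide `1 + p_{i+1} ⋯ p_j` -/
theorem shape {n i j : ℕ} (hi : 1 ≤ i) (hij : i < j) (hj : j ≤ n)
    (h : ∀ q, q.Prime → q ∣ a n → q ≤ pr i) : ¬ a n / rad (a n) ∣ 1 + R i j := by
  intro hd
  refine (a_spec n).2 i j hi hij hj ?_
  rw [add_eq hij.le, ← Nat.mul_div_cancel' (rad_dvd (a n))]
  exact mul_dvd_mul (rad_dvd_P hi h) hd

theorem P_mod_four {k : ℕ} (hk : 1 ≤ k) : P k % 4 = 2 := by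
  induction k, hk using Nat.le_induction with
  | base => rw [P_succ, P_zero, one_mul, pr_one]
  | succ k hk ih =>
    rw [P_succ, Nat.mul_mod, ih]
    have h1 : pr (k + 1) % 2 = 1 := by
      have h2 := pr_lt (le_refl 1) (show 1 < k + 1 by omega)
      rw [pr_one] at h2
      exact Nat.odd_iff.mp ((pr_prime (k + 1)).odd_of_ne_two (by omega))
    have h3 : pr (k + 1) % 4 = 1 ∨ pr (k + 1) % 4 = 3 := by omega
    rcases h3 with h3 | h3 <;> rw [h3]

theorem four_dvd {i j : ℕ} (hi : 1 ≤ i) (hj : 1 ≤ j) : 4 ∣ P i + P j := by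
  have := P_mod_four hi
  have := P_mod_four hj
  omega

theorem P_one : P 1 = 2 := by rw [P_succ, P_zero, one_mul, pr_one]

theorem P_two : P 2 = 6 := by rw [P_succ, P_one, pr_two]

/-- `a(n)` is odd or divisible by `8` -/
theorem eight_dvd {n : ℕ} (hn : 2 ≤ n) (h : 2 ∣ a n) : 8 ∣ a n := by
  by_contra h8
  obtain ⟨h1, hF⟩ := a_spec n
  -- `a n = 2 s` or `4 s`, `s` odd
  obtain ⟨s, hs, hss⟩ : ∃ s, Odd s ∧ (a n = 2 * s ∨ a n = 4 * s) := by
    obtain ⟨b, hb⟩ := h
    rcases Nat.even_or_odd b with hb' | hb'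
    · obtain ⟨c, hc⟩ := hb'
      refine ⟨c, ?_, Or.inr (by omega)⟩
      rcases Nat.even_or_odd c with hc' | hc'
      · exfalso
        obtain ⟨d, hd⟩ := hc'
        apply h8
        exact ⟨d, by omega⟩
      · exact hc'
    · exact ⟨b, hb', Or.inl hb⟩
  have hs1 : a n ∣ 4 * s := by
    rcases hss with h | h
    · rw [h]; exact mul_dvd_mul_right (by norm_num) s
    · rw [h]
  have hcop : Nat.Coprime 4 s := by
    have : Nat.Coprime 2 s := Nat.coprime_two_left.mpr hs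
    exact Nat.Coprime.pow_left 2 this
  rcases Nat.lt_or_ge 1 s with h1s | h1s
  · have hlt : s < a n := by rcases hss with h | h <;> omega
    obtain ⟨i, j, hi, hij, hj, hd⟩ := a_min h1s hlt
    exact hF i j hi hij hj (hs1.trans (hcop.mul_dvd_of_dvd_of_dvd (four_dvd hi (hi.trans hij.le)) hd))
  · have h1s : s = 1 := by
      have := hs.pos
      omega
    subst h1s
    refine hF 1 2 le_rfl (by omega) hn ?_
    rw [P_one, P_two]
    exact hs1.trans (by norm_num)

end Pool.Agent.Pe08634
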