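import Pool.Agent.Lib.Pe08634.Bound

/-!
# The explicit bound `a(n) < n ^ 3 log n`
-/

set_option autoImplicit false

namespace Pool.Agent.Pe08634

open Finset

theorem log_le_tangent {x : ℝ} (hx : 0 < x) : Real.log x ≤ 3 * Real.log 2 + x / 8 - 1 := by
  have h := Real.log_le_sub_one_of_pos (show 0 < x / 8 by positivity)
  rw [Real.log_div hx.ne' (by norm_num), show (8 : ℝ) = 2 ^ 3 by norm_num, Real.log_pow] at h
  push_cast at h
  linarith

theorem le_primeCounting_sq {n : ℕ} (hn : 2 ≤ n) : n ≤ Nat.primeCounting (n ^ 2) := by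
  rcases Nat.lt_or_ge n 7 with h | h
  · interval_cases n <;> decide
  have h7 : (7 : ℝ) ≤ n := by exact_mod_cast h
  have h1 := Chebyshev.pi_ge (n ^ 2)
  have h2 : (n : ℝ) ≤ (((n ^ 2 : ℕ) : ℝ) * Real.log 2 - Real.log (((n ^ 2 : ℕ) : ℝ) + 1))
      / Real.log ((n ^ 2 : ℕ) : ℝ) := by
    push_cast
    rw [le_div_iff₀ (Real.log_pos (by nlinarith)), Real.log_pow]
    have h3 : Real.log ((n : ℝ) ^ 2 + 1) ≤ Real.log 2 + 2 * Real.log n := by
      calc Real.log ((n : ℝ) ^ 2 + 1) ≤ Real.log (2 * (n : ℝ) ^ 2) :=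
            Real.log_le_log (by positivity) (by nlinarith)
        _ = _ := by
            rw [Real.log_mul (by norm_num) (by positivity), Real.log_pow]
            norm_num
    have h4 := log_le_tangent (show (0 : ℝ) < n by linarith)
    have h5 := Real.log_two_gt_d9
    have h6 := Real.log_two_lt_d9
    push_cast
    have h8 : (2 * (n : ℝ) + 2) * Real.log n ≤ (2 * n + 2) * (3 * Real.log 2 + n / 8 - 1) := by
      gcongr
    nlinarith
  exact_mod_cast h2.trans h1

theorem pr_le_sq {n : ℕ} (hn : 2 ≤ n) : pr n ≤ n ^ 2 := by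
  have h := le_primeCounting_sq hn
  rw [Nat.primeCounting, Nat.primeCounting'] at h
  have : pr n < n ^ 2 + 1 := Nat.nth_lt_of_lt_count (by omega)
  omega

theorem P_three : P 3 = 30 := by
  have h5 : pr 3 = 5 := by unfold pr; simp [Nat.nth_prime_two_eq_five]
  rw [P_succ, P_two, h5]

theorem a_two : a 2 ≤ 3 := by
  refine a_le (by norm_num) fun i j hi hij hj => ?_
  obtain ⟨rfl, rfl⟩ : i = 1 ∧ j = 2 := by omega
  rw [P_one, P_two]; norm_num

theorem a_three : a 3 ≤ 5 := by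
  refine a_le (by norm_num) fun i j hi hij hj => ?_
  have h : (i = 1 ∧ j = 2) ∨ (i = 1 ∧ j = 3) ∨ (i = 2 ∧ j = 3) := by omega
  rcases h with ⟨rfl, rfl⟩ | ⟨rfl, rfl⟩ | ⟨rfl, rfl⟩ <;>
    simp only [P_one, P_two, P_three] <;> norm_num

theorem two_log_mono {x y : ℝ} (hx : 2 ≤ x) (hxy : x ≤ y) :
    (x - 1) * Real.log 2 - Real.log x ≤ (y - 1) * Real.log 2 - Real.log y := by
  have h := Real.log_le_sub_one_of_pos (show 0 < y / x from div_pos (by linarith) (by linarith))
  rw [Real.log_div (by linarith) (by linarith)] at h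
  have h1 : y / x - 1 ≤ (y - x) / 2 := by
    rw [div_sub_one (by linarith), div_le_div_iff₀ (by linarith) (by norm_num)]
    nlinarith
  have h5 := Real.log_two_gt_d9
  nlinarith

/-- `a(n) < n ^ 3 log n` for all `n ≥ 2` -/
theorem a_lt {n : ℕ} (hn : 2 ≤ n) : (a n : ℝ) < (n : ℝ) ^ 3 * Real.log n := by
  have h5 := Real.log_two_gt_d9
  have h6 := Real.log_two_lt_d9
  rcases Nat.lt_or_ge n 4 with h | h
  · have h' : n = 2 ∨ n = 3 := by omega
    rcases h' with rfl | rfl
    · have : (a 2 : ℝ) ≤ 3 := by exact_mod_cast a_two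
      push_cast
      linarith
    · have : (a 3 : ℝ) ≤ 5 := by exact_mod_cast a_three
      have h3 : Real.log 2 ≤ Real.log 3 := Real.log_le_log (by norm_num) (by norm_num)
      push_cast
      linarith
  by_contra hc
  rw [not_lt] at hc
  have hn4 : (4 : ℝ) ≤ n := by exact_mod_cast h
  set x : ℝ := (n : ℝ) with hx
  have hl1 : 1 ≤ Real.log x := by
    have : Real.log 4 ≤ Real.log x := Real.log_le_log (by norm_num) hn4
    rw [show (4 : ℝ) = 2 ^ 2 by norm_num, Real.log_pow] at this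
    push_cast at this
    linarith
  have hup := (psi_le_log_D n).trans (log_D_le n (by omega))
  have hlow := Chebyshev.psi_ge (a n - 1)
  have ha1 : 1 ≤ a n := (a_spec n).1.le
  rw [Nat.cast_sub ha1, Nat.cast_one] at hlow hup
  rw [show (a n : ℝ) - 1 + 1 = a n by ring] at hlow
  have hL : Real.log (pr n) ≤ 2 * Real.log x := by
    have h2 : (pr n : ℝ) ≤ x ^ 2 := by rw [hx]; exact_mod_cast pr_le_sq hn
    calc Real.log (pr n) ≤ Real.log (x ^ 2) :=
          Real.log_le_log (by exact_mod_cast (pr_prime n).pos) h2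
      _ = _ := by rw [Real.log_pow]; norm_num
  have hY : (2 : ℝ) ≤ x ^ 3 * Real.log x := by nlinarith [pow_le_pow_left₀ (by norm_num) hn4 3]
  have hmono := two_log_mono hY hc
  have hlogY : Real.log (x ^ 3 * Real.log x) ≤ 4 * Real.log x := by
    rw [Real.log_mul (by positivity) (by linarith), Real.log_pow]
    have : Real.log (Real.log x) ≤ Real.log x :=
      (Real.log_le_sub_one_of_pos (by linarith)).trans (by linarith)
    push_cast
    linarith
  have hcoef : 0 ≤ (x ^ 3 - x) / 6 + (x - 1) := by nlinarith [pow_le_pow_left₀ (by norm_num) hn4 2]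
  have hup2 : ((x ^ 3 - x) / 6 + (x - 1)) * Real.log (pr n)
      ≤ ((x ^ 3 - x) / 6 + (x - 1)) * (2 * Real.log x) := by gcongr
  -- everything in terms of `l = log x`
  set l := Real.log x with hl
  have key : (x ^ 3 * l - 1) * Real.log 2 - 4 * l
      ≤ ((x ^ 3 - x) / 6 + (x - 1)) * (2 * l) + (x ^ 2 - x) / 2 * Real.log 2 := by linarith
  have hk1 : x ^ 3 * l * 0.69 ≤ x ^ 3 * l * Real.log 2 := by gcongr; linarith
  have hk2 : (x ^ 2 - x) / 2 * Real.log 2 ≤ (x ^ 2 - x) / 2 * 0.7 := by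
    have : 0 ≤ (x ^ 2 - x) / 2 := by nlinarith
    gcongr
    linarith
  have hk3 : x ^ 3 * l * 0.69 - 0.7 - 4 * l
      ≤ ((x ^ 3 - x) / 6 + (x - 1)) * (2 * l) + (x ^ 2 - x) / 2 * 0.7 := by linarith
  have hk4 : l * (x ^ 3 * (0.69 - 1 / 3) - (5 / 3) * x - 2) ≤ (x ^ 2 - x) / 2 * 0.7 + 0.7 := by
    linarith
  have hk5 : 0 ≤ x ^ 3 * (0.69 - 1 / 3) - (5 / 3) * x - 2 := by nlinarith [mul_self_nonneg (x - 4)]
  have hk6 : x ^ 3 * (0.69 - 1 / 3) - (5 / 3) * x - 2 ≤ (x ^ 2 - x) / 2 * 0.7 + 0.7 := by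
    nlinarith
  nlinarith [mul_self_nonneg (x - 4)]

end Pool.Agent.Pe08634
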