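import Pool.Agent.Lib.Pe08634.Limsup
import Pool.Agent.Lib.SW.Main

/-!
# Composite values of `a(n)` and a lower bound, by the theorem of Siegel and Walfisz
-/

set_option autoImplicit false

namespace Pool.Agent.Pe08634

open Finset Filter Topology Pool.Agent.Lib.SW

theorem lt_pr {n : ℕ} (hn : 1 ≤ n) : n < pr n := by
  induction n, hn using Nat.le_induction with
  | base => rw [pr_one]; omega
  | succ k hk ih =>
    have := pr_lt hk (show k < k + 1 by omega)
    omega

/-- a prime `≡ -1 (mod v)` in `(y, x]` exists if the theta function grows -/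
theorem exists_of_theta_lt {v : ℕ} (hv : 1 ≤ v) {x y : ℝ} (hx : 0 < x)
    (h : thetaAP y v (v - 1) < thetaAP x v (v - 1)) :
    ∃ p : ℕ, p.Prime ∧ v ∣ p + 1 ∧ y < p ∧ (p : ℝ) ≤ x := by
  by_contra hne
  push Not at hne
  refine absurd h (not_lt.mpr ?_)
  unfold thetaAP
  refine Finset.sum_le_sum_of_subset_of_nonneg ?_ fun p hp _ => ?_
  · intro p hp
    rw [Finset.mem_filter, Finset.mem_Icc] at hp ⊢
    refine ⟨⟨hp.1.1, Nat.le_floor ?_⟩, hp.2⟩
    by_contra hc2
    rw [not_le] at hc2
    have hd : v ∣ p + 1 := by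
      have h1 : p + 1 ≡ (v - 1) + 1 [MOD v] := hp.2.2.add_right 1
      rw [Nat.sub_add_cancel hv] at h1
      exact (Nat.modEq_zero_iff_dvd.mp (h1.trans (by simp [Nat.ModEq])))
    have := hne p hp.2.1 hd hc2
    have h4 := (Nat.le_floor_iff hx.le).mp hp.1.2
    linarith
  · rw [Finset.mem_filter, Finset.mem_Icc] at hp
    exact Real.log_nonneg (by exact_mod_cast hp.1.1)

theorem exists_prime_SW (A : ℕ) : ∀ᶠ n : ℕ in atTop, ∀ v : ℕ, 1 ≤ v →
    (v : ℝ) ≤ Real.log n ^ A →
    ∃ p : ℕ, p.Prime ∧ v ∣ p + 1 ∧ (pr n : ℝ) - pr n / Real.log n ^ A < p ∧ (p : ℝ) ≤ pr n := by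
  obtain ⟨C, hC, hSW⟩ := siegel_walfisz_theta_nat (2 * A + 1)
  have hL : Tendsto (fun n : ℕ => Real.log n) atTop atTop :=
    Real.tendsto_log_atTop.comp tendsto_natCast_atTop_atTop
  filter_upwards [hL.eventually_gt_atTop (2 * (2 ^ (2 * A + 2) * C) + 2 ^ (2 * A + 1) + 4),
    eventually_ge_atTop 1] with n hLn hn v hv hvL
  set L := Real.log n with hLdef
  set x : ℝ := (pr n : ℝ) with hx
  have h2A : (0 : ℝ) < 2 ^ (2 * A + 1) := by positivity
  have h2B : (0 : ℝ) < 2 ^ (2 * A + 2) * C := by positivity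
  have hL4 : 4 < L := by linarith
  have hL1 : 1 ≤ L := by linarith
  have hL0 : 0 < L := by linarith
  have hxn : (n : ℝ) < x := by rw [hx]; exact_mod_cast lt_pr hn
  have hn0 : (0 : ℝ) < n := by exact_mod_cast hn
  have hx0 : 0 < x := by linarith
  have hlx : L ≤ Real.log x := Real.log_le_log hn0 hxn.le
  have hLA : 0 < L ^ A := by positivity
  have hLA1 : 1 ≤ L ^ A := one_le_pow₀ hL1
  -- we use an even smaller interval, if `A = 0` the left end must be positive
  set y : ℝ := x - x / (2 * L ^ A) with hy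
  have hyx : x / 2 ≤ y := by
    have : x / (2 * L ^ A) ≤ x / 2 := by
      apply div_le_div_of_nonneg_left hx0.le (by norm_num)
      linarith
    linarith
  have hy0 : 0 < y := by linarith
  have hle : x - x / L ^ A ≤ y := by
    have : x / (2 * L ^ A) ≤ x / L ^ A := by
      apply div_le_div_of_nonneg_left hx0.le hLA
      linarith
    linarith
  have hylt : y ≤ x := by
    have : 0 ≤ x / (2 * L ^ A) := by positivity
    linarith
  have hly : L / 2 ≤ Real.log y := by
    have h1 : Real.log (x / 2) ≤ Real.log y := Real.log_le_log (by positivity) hyx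
    rw [Real.log_div hx0.ne' (by norm_num)] at h1
    have := Real.log_two_lt_d9
    linarith
  have hex : Real.exp 4 < x := by
    rw [← Real.lt_log_iff_exp_lt hx0]
    linarith
  have hx4 : 4 < x := by
    have := Real.add_one_le_exp 4
    linarith
  have hvA : (v : ℝ) ≤ Real.log y ^ (2 * A + 1) := by
    have h1 : (L / 2) ^ (2 * A + 1) ≤ Real.log y ^ (2 * A + 1) := by gcongr
    refine hvL.trans (le_trans ?_ h1)
    rw [div_pow, le_div_iff₀ h2A]
    calc L ^ A * 2 ^ (2 * A + 1) ≤ L ^ A * L := by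
          gcongr
          linarith
      _ = L ^ (A + 1) := by ring
      _ ≤ L ^ (2 * A + 1) := pow_le_pow_right₀ hL1 (by omega)
  have hvx : (v : ℝ) ≤ Real.log x ^ (2 * A + 1) := by
    refine hvA.trans ?_
    have : Real.log y ≤ Real.log x := Real.log_le_log hy0 hylt
    have h0 : 0 ≤ Real.log y := by linarith
    gcongr
  have hcop : (v - 1).Coprime v := by
    obtain ⟨w, rfl⟩ : ∃ w, v = w + 1 := ⟨v - 1, by omega⟩
    simp
  have s1 := hSW x (by linarith) v (v - 1) hv hvx hcop
  have s2 := hSW y (by linarith) v (v - 1) hv hvA hcop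
  have hφ : (0 : ℝ) < (v.totient : ℝ) := by exact_mod_cast Nat.totient_pos.2 hv
  have hφv : (v.totient : ℝ) ≤ L ^ A := by
    have : (v.totient : ℝ) ≤ v := by exact_mod_cast Nat.totient_le v
    linarith
  -- main term
  have m1 : x / (2 * L ^ (2 * A)) ≤ x / (v.totient : ℝ) - y / (v.totient : ℝ) := by
    rw [← sub_div, hy, sub_sub_cancel, div_div, div_le_div_iff_of_pos_left hx0 (by positivity)
      (by positivity)]
    calc 2 * L ^ A * (v.totient : ℝ) ≤ 2 * L ^ A * L ^ A := by gcongr
      _ = 2 * L ^ (2 * A) := by ring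
  -- error terms
  have e0 : (L / 2) ^ (2 * A + 1) ≤ Real.log y ^ (2 * A + 1) := by gcongr
  have e1 : C * x / Real.log x ^ (2 * A + 1) ≤ C * x / (L / 2) ^ (2 * A + 1) := by
    apply div_le_div_of_nonneg_left (by positivity) (by positivity)
    have : L / 2 ≤ Real.log x := by linarith
    gcongr
  have e2 : C * y / Real.log y ^ (2 * A + 1) ≤ C * x / (L / 2) ^ (2 * A + 1) := by
    apply div_le_div₀ (by positivity) (by gcongr) (by positivity) e0
  have e3 : 2 * (C * x / (L / 2) ^ (2 * A + 1)) < x / (2 * L ^ (2 * A)) := by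
    rw [div_pow, show 2 * (C * x / (L ^ (2 * A + 1) / 2 ^ (2 * A + 1)))
      = (2 ^ (2 * A + 2) * C) * x / L ^ (2 * A + 1) by field_simp; ring,
      div_lt_div_iff₀ (by positivity) (by positivity)]
    have h3 : 2 * (2 ^ (2 * A + 2) * C) < L := by linarith
    calc 2 ^ (2 * A + 2) * C * x * (2 * L ^ (2 * A))
        = (x * L ^ (2 * A)) * (2 * (2 ^ (2 * A + 2) * C)) := by ring
      _ < (x * L ^ (2 * A)) * L := by gcongr
      _ = x * L ^ (2 * A + 1) := by ring
  have hlt : thetaAP y v (v - 1) < thetaAP x v (v - 1) := by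
    rw [abs_le] at s1 s2
    linarith [s1.1, s2.2]
  obtain ⟨p, hp, hvp, hp1, hp2⟩ := exists_of_theta_lt hv hx0 hlt
  exact ⟨p, hp, hvp, lt_of_le_of_lt hle hp1, hp2⟩

theorem R_succ (k : ℕ) : R k (k + 1) = pr (k + 1) := by
  unfold R
  have : Ioc k (k + 1) = {k + 1} := by ext t; simp
  rw [this, Finset.prod_singleton]

/-- the common step: a prime `p ≤ p_n`, `p ≡ -1` modulo `a(n) / rad a(n)`, is not larger than all
prime factors of `a(n)` -/
theorem exists_factor {n p : ℕ} (hn : 1 ≤ n) (hp : p.Prime) (hpn : p ≤ pr n) (hp2 : 2 < p)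
    (hv : a n / rad (a n) ∣ p + 1) : ∃ q, q.Prime ∧ q ∣ a n ∧ p ≤ q := by
  by_contra hc
  push Not at hc
  obtain ⟨l, hl, rfl⟩ := exists_pr hp
  have hln : l ≤ n := by
    by_contra hcl
    have := pr_lt hn (not_le.mp hcl)
    omega
  have hl2 : 2 ≤ l := by
    by_contra hcl
    have hl1 : l = 1 := by omega
    rw [hl1, pr_one] at hp2
    omega
  obtain ⟨k, rfl⟩ : ∃ k, l = k + 1 := ⟨l - 1, by omega⟩
  refine shape (n := n) (i := k) (j := k + 1) (by omega) (by omega) hln (fun q hq hqa => ?_) ?_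
  · obtain ⟨s, hs, rfl⟩ := exists_pr hq
    have h6 := hc _ hq hqa
    have h7 : s < k + 1 := by
      by_contra hcs
      have := pr_le (not_lt.mp hcs)
      omega
    exact pr_le (by omega)
  · rw [R_succ, add_comm]
    exact hv

theorem small_of_log (A : ℕ) : ∀ᶠ n : ℕ in atTop, Real.log n ^ A ≤ (n : ℝ) / 2 := by
  have h := (Real.isLittleO_pow_log_id_atTop (n := A)).bound (show (0 : ℝ) < 1 / 2 by norm_num)
  filter_upwards [tendsto_natCast_atTop_atTop.eventually h, eventually_ge_atTop 1] with n hn h1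
  have hl : 0 ≤ Real.log (n : ℝ) := Real.log_nonneg (by exact_mod_cast h1)
  simp only [id, Real.norm_eq_abs] at hn
  rw [abs_of_nonneg (by positivity), abs_of_nonneg (by positivity)] at hn
  linarith

/-- a composite value of `a(n)` has a large quotient `a(n) / rad a(n)` or a prime factor larger than
`(1 - 1 / (log n) ^ A) p_n` -/
theorem composite_shape (A : ℕ) : ∀ᶠ n : ℕ in atTop,
    Real.log n ^ A < ((a n / rad (a n) : ℕ) : ℝ) ∨
      ∃ q, q.Prime ∧ q ∣ a n ∧ (pr n : ℝ) - pr n / Real.log n ^ A < q := by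
  have hL : Tendsto (fun n : ℕ => Real.log n) atTop atTop :=
    Real.tendsto_log_atTop.comp tendsto_natCast_atTop_atTop
  filter_upwards [exists_prime_SW (A + 1), eventually_ge_atTop 4, hL.eventually_ge_atTop 2]
    with n h hn hL2
  by_contra hc
  push Not at hc
  obtain ⟨hc1, hc2⟩ := hc
  have hv : 1 ≤ a n / rad (a n) :=
    Nat.div_pos (Nat.le_of_dvd (by have := (a_spec n).1; omega) (rad_dvd _)) (rad_pos _)
  have hpow : Real.log n ^ A ≤ Real.log n ^ (A + 1) := pow_le_pow_right₀ (by linarith) (by omega)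
  obtain ⟨p, hp, hvp, hp1, hp2⟩ := h _ hv (hc1.trans hpow)
  have hpr : (0 : ℝ) < pr n := by exact_mod_cast (pr_prime n).pos
  have hLA : 0 < Real.log n ^ A := by positivity
  have h3 : (pr n : ℝ) / Real.log n ^ (A + 1) ≤ pr n / Real.log n ^ A :=
    div_le_div_of_nonneg_left hpr.le hLA hpow
  have hp3 : 2 < p := by
    have h4 : (pr n : ℝ) / Real.log n ^ (A + 1) ≤ pr n / 2 := by
      apply div_le_div_of_nonneg_left hpr.le (by norm_num)
      calc (2 : ℝ) ≤ Real.log n := hL2
        _ = Real.log n ^ 1 := (pow_one _).symm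
        _ ≤ Real.log n ^ (A + 1) := pow_le_pow_right₀ (by linarith) (by omega)
    have h5 : (4 : ℝ) < pr n := by
      have := lt_pr (n := n) (by omega)
      have h6 : 4 < pr n := by omega
      exact_mod_cast h6
    have h7 : (2 : ℝ) < p := by linarith
    exact_mod_cast h7
  obtain ⟨q, hq, hqa, hpq⟩ := exists_factor (by omega) hp (by exact_mod_cast hp2) hp3 hvp
  have h8 := hc2 q hq hqa
  have h9 : (p : ℝ) ≤ q := by exact_mod_cast hpq
  linarith

/-- `a(n)` grows faster than every power of `log n` -/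
theorem log_pow_lt (A : ℕ) : ∀ᶠ n : ℕ in atTop, Real.log n ^ A < (a n : ℝ) := by
  have hL : Tendsto (fun n : ℕ => Real.log n) atTop atTop :=
    Real.tendsto_log_atTop.comp tendsto_natCast_atTop_atTop
  filter_upwards [composite_shape (A + 1), small_of_log A, eventually_ge_atTop 1,
    hL.eventually_ge_atTop 2] with n h h2 hn hL2
  by_contra hc
  rw [not_lt] at hc
  have hpow : Real.log n ^ A ≤ Real.log n ^ (A + 1) := pow_le_pow_right₀ (by linarith) (by omega)
  rcases h with h | ⟨q, hq, hqa, hlt⟩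
  · have h1 : ((a n / rad (a n) : ℕ) : ℝ) ≤ a n := by exact_mod_cast Nat.div_le_self _ _
    linarith
  · have h1 : (q : ℝ) ≤ a n := by
      exact_mod_cast Nat.le_of_dvd (by have := (a_spec n).1; omega) hqa
    have hpr : (n : ℝ) < pr n := by exact_mod_cast lt_pr hn
    have hn0 : (0 : ℝ) < n := by exact_mod_cast hn
    have h4 : (pr n : ℝ) / Real.log n ^ (A + 1) ≤ pr n / 2 := by
      apply div_le_div_of_nonneg_left (by linarith) (by norm_num)
      calc (2 : ℝ) ≤ Real.log n := hL2
        _ = Real.log n ^ 1 := (pow_one _).symm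
        _ ≤ Real.log n ^ (A + 1) := pow_le_pow_right₀ (by linarith) (by omega)
    linarith

end Pool.Agent.Pe08634
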