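import Pool.Agent.Lib.Pe08634.Asymp

/-!
# The asymptotic bound `a(n) ≤ (1/6 + o(1)) n ^ 3 log n`
-/

set_option autoImplicit false

namespace Pool.Agent.Pe08634

open Finset Filter Topology

theorem thetaAP_le_theta (x : ℝ) : PntAP.thetaAP (0 : ZMod 1) x ≤ Chebyshev.theta x := by
  unfold PntAP.thetaAP Chebyshev.theta
  refine Finset.sum_le_sum_of_subset_of_nonneg ?_ fun p hp _ => ?_
  · intro p hp
    rw [PntAP.mem_primesAP] at hp
    simp only [Finset.mem_filter, Finset.mem_Ioc]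
    exact ⟨⟨by omega, hp.1.2⟩, hp.2.1⟩
  · simp only [Finset.mem_filter, Finset.mem_Ioc] at hp
    exact Real.log_nonneg (by exact_mod_cast hp.1.1)

/-- the lower bound in the prime number theorem -/
theorem theta_ge {η : ℝ} (hη : 0 < η) : ∀ᶠ x : ℝ in atTop, (1 - η) * x ≤ Chebyshev.theta x := by
  have hT := PntAP.thetaAP_tendsto (q := 1) (a := 0) (isUnit_of_subsingleton _)
  rw [Nat.totient_one, Nat.cast_one, inv_one] at hT
  filter_upwards [hT.eventually (lt_mem_nhds (show 1 - η < 1 by linarith)),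
    eventually_gt_atTop 0] with x g hx
  rw [lt_div_iff₀ hx] at g
  exact g.le.trans (thetaAP_le_theta x)

theorem primeCounting_pr {n : ℕ} (hn : 1 ≤ n) : Nat.primeCounting (pr n) = n := by
  unfold Nat.primeCounting Nat.primeCounting'
  rw [Nat.count_succ, if_pos (pr_prime n)]
  have : Nat.count Nat.Prime (pr n) = n - 1 := Nat.primeCounting'_nth_eq (n - 1)
  omega

/-- `log p_n ≤ (1 + η) log n` for large `n` -/
theorem log_pr_le_log {η : ℝ} (hη : 0 < η) :
    ∀ᶠ n : ℕ in atTop, Real.log (pr n) ≤ (1 + η) * Real.log n := by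
  set κ := min η 1 / 4 with hκ
  have hκ0 : 0 < κ := by have := lt_min hη one_pos; positivity
  have hκ1 : κ ≤ η / 4 := by have := min_le_left η 1; linarith
  have hκ2 : κ ≤ 1 / 4 := by have := min_le_right η 1; linarith
  have hLt : Tendsto (fun n : ℕ => Real.log (pr n)) atTop atTop :=
    Real.tendsto_log_atTop.comp tendsto_pr
  have h1 : ∀ᶠ n : ℕ in atTop, Real.log (Real.log (pr n)) ≤ κ * Real.log (pr n) := by
    have h := (Real.isLittleO_log_id_atTop.bound hκ0)
    filter_upwards [hLt.eventually h, hLt.eventually_ge_atTop 1] with n g g1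
    simp only [id, Real.norm_eq_abs] at g
    rw [abs_of_nonneg (Real.log_nonneg g1), abs_of_nonneg (by linarith)] at g
    exact g
  have h2 := tendsto_pr.eventually (theta_ge (show (0 : ℝ) < 1 / 2 by norm_num))
  have h3 : ∀ᶠ n : ℕ in atTop, Real.log 2 ≤ κ * Real.log n :=
    ((Real.tendsto_log_atTop.comp tendsto_natCast_atTop_atTop).const_mul_atTop hκ0).eventually_ge_atTop _
  filter_upwards [h1, h2, h3, eventually_ge_atTop 1, hLt.eventually_ge_atTop 1]
    with n g1 g2 g3 hn g5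
  have hp : (0 : ℝ) < pr n := by exact_mod_cast (pr_prime n).pos
  have hn0 : (0 : ℝ) < n := by exact_mod_cast hn
  have h4 := Chebyshev.theta_le_pi_mul_log (pr n)
  rw [primeCounting_pr hn] at h4
  have h5 : (pr n : ℝ) ≤ 2 * (n * Real.log (pr n)) := by linarith
  have h6 : Real.log (pr n) ≤ Real.log 2 + (Real.log n + Real.log (Real.log (pr n))) := by
    calc Real.log (pr n) ≤ Real.log (2 * (n * Real.log (pr n))) := Real.log_le_log hp h5
      _ = _ := by
          rw [Real.log_mul (by norm_num) (by positivity), Real.log_mul (by positivity) (by positivity)]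
  have hl : 0 ≤ Real.log n := Real.log_nonneg (by exact_mod_cast hn)
  have h7 : (1 - κ) * Real.log (pr n) ≤ (1 + κ) * Real.log n := by linarith
  have h8 : (1 + κ) ≤ (1 - κ) * (1 + η) := by nlinarith
  have h9 : (1 - κ) * Real.log (pr n) ≤ (1 - κ) * ((1 + η) * Real.log n) := by
    calc _ ≤ (1 + κ) * Real.log n := h7
      _ ≤ ((1 - κ) * (1 + η)) * Real.log n := by gcongr
      _ = _ := by ring
  exact le_of_mul_le_mul_left h9 (by linarith)

theorem asymp {ε : ℝ} (hε : 0 < ε) :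
    ∀ᶠ n : ℕ in atTop, (a n : ℝ) ≤ (1 / 6 + ε) * ((n : ℝ) ^ 3 * Real.log n) := by
  set η := min ε 1 / 8 with hη
  have hη0 : 0 < η := by have := lt_min hε one_pos; positivity
  have hη1 : η ≤ ε / 8 := by have := min_le_left ε 1; linarith
  have hη2 : η ≤ 1 / 8 := by have := min_le_right ε 1; linarith
  have haT : Tendsto (fun n => ((a n - 1 : ℕ) : ℝ)) atTop atTop :=
    tendsto_natCast_atTop_atTop.comp ((tendsto_sub_atTop_nat 1).comp tendsto_a)
  have h1 := haT.eventually (theta_ge hη0)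
  have h2 := log_pr_le_log hη0
  have h3 : ∀ᶠ n : ℕ in atTop, 1 / η ≤ (n : ℝ) := tendsto_natCast_atTop_atTop.eventually_ge_atTop _
  have h4 : ∀ᶠ n : ℕ in atTop, (1 : ℝ) ≤ Real.log n :=
    (Real.tendsto_log_atTop.comp tendsto_natCast_atTop_atTop).eventually_ge_atTop _
  filter_upwards [h1, h2, h3, h4, eventually_ge_atTop 1] with n g1 g2 g3 g4 hn
  have hx1 : (1 : ℝ) ≤ n := by exact_mod_cast hn
  set x : ℝ := (n : ℝ) with hx
  set l := Real.log x with hl
  have hup := ((Chebyshev.theta_le_psi _).trans (psi_le_log_D n)).trans (log_D_le n hn)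
  have hup2 := g1.trans hup
  rw [Nat.cast_sub (a_spec n).1.le, Nat.cast_one] at hup2
  rw [← hx] at hup2
  have hηx : 1 ≤ η * x := by
    rw [div_le_iff₀ hη0] at g3
    linarith
  have e1 : x ≤ η * x ^ 3 := by nlinarith [mul_nonneg hη0.le (by positivity : 0 ≤ x)]
  have e2 : x ^ 2 ≤ η * (x ^ 3 * l) := by
    have : x ^ 2 ≤ η * x ^ 3 := by nlinarith [sq_nonneg x]
    have h6 : η * x ^ 3 ≤ η * (x ^ 3 * l) := by
      have : x ^ 3 ≤ x ^ 3 * l := le_mul_of_one_le_right (by positivity) g4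
      gcongr
    linarith
  have e3 : 1 ≤ η * (x ^ 3 * l) := by nlinarith
  have c1 : ((x ^ 3 - x) / 6 + (x - 1)) * Real.log (pr n) ≤ (x ^ 3 * (1 / 6 + η)) * ((1 + η) * l) := by
    have hL : 0 ≤ Real.log (pr n) := Real.log_nonneg (by exact_mod_cast (pr_prime n).one_le)
    calc _ ≤ (x ^ 3 * (1 / 6 + η)) * Real.log (pr n) := by
          refine mul_le_mul_of_nonneg_right ?_ hL
          nlinarith
      _ ≤ _ := by gcongr
  have c2 : (x ^ 2 - x) / 2 * Real.log 2 ≤ η * (x ^ 3 * l) := by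
    have h6 := Real.log_two_lt_d9
    have h5 := Real.log_two_gt_d9
    have h7 : (x ^ 2 - x) / 2 * Real.log 2 ≤ (x ^ 2 - x) / 2 * 1 := by
      have : 0 ≤ (x ^ 2 - x) / 2 := by nlinarith
      gcongr
      linarith
    nlinarith
  have hY : 0 ≤ x ^ 3 * l := by positivity
  have c3 : (1 - η) * (a n : ℝ) ≤ (1 - η) * ((1 / 6 + ε) * (x ^ 3 * l)) := by
    have c4 : (1 - η) * (a n : ℝ) ≤ (2 * η + (1 / 6 + η) * (1 + η)) * (x ^ 3 * l) := by nlinarith
    have c5 : 2 * η + (1 / 6 + η) * (1 + η) ≤ (1 - η) * (1 / 6 + ε) := by nlinarith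
    calc (1 - η) * (a n : ℝ) ≤ (2 * η + (1 / 6 + η) * (1 + η)) * (x ^ 3 * l) := c4
      _ ≤ ((1 - η) * (1 / 6 + ε)) * (x ^ 3 * l) := mul_le_mul_of_nonneg_right c5 hY
      _ = _ := by ring
  exact le_of_mul_le_mul_left c3 (by linarith)

end Pool.Agent.Pe08634
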