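import Pool.Agent.Lib.Pe08634.Large

/-!
# Squarefree values of `a(n)`
-/

set_option autoImplicit false

namespace Pool.Agent.Pe08634

open Finset Filter Topology

theorem div_rad_eq_one {m : ℕ} (hm : m ≠ 0) (h : Squarefree m) : m / rad m = 1 := by
  unfold rad
  rw [Nat.prod_primeFactors_of_squarefree h]
  exact Nat.div_self (Nat.pos_of_ne_zero hm)

/-- a squarefree value has a prime factor `≥ p_n` -/
theorem squarefree_factor {n : ℕ} (hn : 2 ≤ n) (h : Squarefree (a n)) :
    ∃ q, q.Prime ∧ q ∣ a n ∧ pr n ≤ q := by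
  by_contra hc
  push Not at hc
  have ha := (a_spec n).1
  refine shape (n := n) (i := n - 1) (j := n) (by omega) (by omega) le_rfl (fun q hq hqa => ?_) ?_
  · obtain ⟨s, hs, rfl⟩ := exists_pr hq
    have h6 := hc _ hq hqa
    have h7 : s < n := by
      by_contra hcs
      have := pr_le (not_lt.mp hcs)
      omega
    exact pr_le (by omega)
  · rw [div_rad_eq_one (by omega) h]
    exact one_dvd _

/-- a squarefree composite value is odd and at least `3 p_n` -/
theorem squarefree_composite {n : ℕ} (hn : 2 ≤ n) (h : Squarefree (a n)) (hp : ¬ (a n).Prime) :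
    3 * pr n ≤ a n := by
  obtain ⟨q, hq, ⟨s, hs⟩, hnq⟩ := squarefree_factor hn h
  have ha := (a_spec n).1
  have h2 : ¬ 2 ∣ a n := by
    intro h2
    have h8 := eight_dvd hn h2
    have h4 : 2 * 2 ∣ a n := (by norm_num : 2 * 2 ∣ 8).trans h8
    have := h 2 h4
    rw [Nat.isUnit_iff] at this
    omega
  have hs0 : s ≠ 0 := by rintro rfl; omega
  have hs1 : s ≠ 1 := by
    rintro rfl
    rw [mul_one] at hs
    exact hp (hs ▸ hq)
  have hs2 : s ≠ 2 := by
    rintro rfl
    exact h2 ⟨q, by omega⟩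
  have hs3 : 3 ≤ s := by omega
  calc 3 * pr n ≤ s * q := Nat.mul_le_mul hs3 hnq
    _ = a n := by rw [hs, mul_comm]

end Pool.Agent.Pe08634
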